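import Pool.Agent.KS6_49.L8.H454R3.Att.High

/-!
# Functions computable from a set; approximations of sets below a c.e. set, with a modulus
-/

set_option autoImplicit false

namespace Pool.Agent.H454R3.Att

open Encodable Pool.Agent.Helper578.JD Pool.Agent.Helper578.JD.Oracle

section general

variable {A : Set ℕ}

theorem ok_re : REIn A fun c : Info => Ok A c :=
  REIn.and
    (REIn.all_mem (S := fun (_ : Info) x => x ∈ A) (l := fun c => c.1)
      (REIn.mem (f := fun x : Info × ℕ => x.2) (by fun_prop)) (by fun_prop))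
    (REIn.all_mem (S := fun (_ : Info) x => x ∉ A) (l := fun c => c.2)
      (REIn.not_mem (f := fun x : Info × ℕ => x.2) (by fun_prop)) (by fun_prop))

theorem nok_re : REIn A fun c : Info => ¬ Ok A c := by
  have h1 : REIn A fun c : Info => (∃ x : ℕ, x ∈ c.1 ∧ x ∉ A) ∨ ∃ x : ℕ, x ∈ c.2 ∧ x ∈ A := by
    refine REIn.or ?_ ?_
    · refine REIn.ex (S := fun (c : Info) (x : ℕ) => x ∈ c.1 ∧ x ∉ A) (REIn.and
        (REIn.of_re (RE.mem_list (by fun_prop) (by fun_prop)))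
        (REIn.not_mem (f := fun x : Info × ℕ => x.2) (by fun_prop)))
    · refine REIn.ex (S := fun (c : Info) (x : ℕ) => x ∈ c.2 ∧ x ∈ A) (REIn.and
        (REIn.of_re (RE.mem_list (by fun_prop) (by fun_prop)))
        (REIn.mem (f := fun x : Info × ℕ => x.2) (by fun_prop)))
  refine h1.of_eq fun c => ?_
  unfold Ok
  rw [not_and_or]
  push Not
  exact Iff.rfl

theorem wst_cp {α β : Type} [Primcodable α] [Primcodable β] {e s : α → ℕ} {x : α → β}
    (he : Computable e) (hs : Computable s) (hx : Computable x) :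
    ComputablePred fun a => RE.wst β (e a) (s a) (x a) = true :=
  RE.cp_eq (g := fun _ => true)
    ((RE.wst_comp (α := β)).comp (f := fun p : (ℕ × ℕ) × β => RE.wst β p.1.1 p.1.2 p.2)
      (g := fun a => ((e a, s a), x a)) (by fun_prop)) (by fun_prop)

/-- uniformization -/
theorem unif {S : ℕ → ℕ → Prop} (hS : REIn A fun p : ℕ × ℕ => S p.1 p.2)
    (h : ∀ x, ∃ s, S x s) : ∃ f : ℕ → ℕ, FunIn A f ∧ ∀ x, S x (f x) := by
  classical
  obtain ⟨R, hR, hS⟩ := hS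
  obtain ⟨e, he⟩ := RE.wst_univ hR
  let wd : ℕ → (ℕ × Info) × ℕ := fun m =>
    (Encodable.decode (α := (ℕ × Info) × ℕ) m).getD ((0, ([], [])), 0)
  have hwd : Computable wd := Primrec.option_getD.to_comp.comp (by fun_prop) (by fun_prop)
  let V : ℕ → ℕ → Prop := fun x w =>
    RE.wst ((ℕ × ℕ) × Info) e (wd w).2 ((x, (wd w).1.1), (wd w).1.2) = true
  have hV : ComputablePred fun p : ℕ × ℕ => V p.1 p.2 :=
    wst_cp (by fun_prop) (by fun_prop) (by fun_prop)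
  have hex : ∀ x, ∃ w, V x w ∧ Ok A (wd w).1.2 := by
    intro x
    obtain ⟨s, hs⟩ := h x
    obtain ⟨c, hc, hok⟩ := (hS (x, s)).1 hs
    obtain ⟨t, ht⟩ := (he ((x, s), c)).1 hc
    have h1 : wd (encode ((s, c), t)) = ((s, c), t) := by
      simp only [wd, encodek, Option.getD_some]
    exact ⟨encode ((s, c), t), by simp only [V, h1]; exact ht, by rw [h1]; exact hok⟩
  refine ⟨fun x => (wd (Nat.find (hex x))).1.1, ?_, fun x => ?_⟩
  · have h1 : REIn A fun p : ℕ × ℕ => ∃ w, ((V p.1 w ∧ Ok A (wd w).1.2) ∧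
        ∀ w' < w, ¬ V p.1 w' ∨ ¬ Ok A (wd w').1.2) ∧ (wd w).1.1 = p.2 := by
      refine REIn.ex (S := fun (p : ℕ × ℕ) w => ((V p.1 w ∧ Ok A (wd w).1.2) ∧
        ∀ w' < w, ¬ V p.1 w' ∨ ¬ Ok A (wd w').1.2) ∧ (wd w).1.1 = p.2) ?_
      refine REIn.and (REIn.and (REIn.and ?_ ?_) ?_) ?_
      · exact REIn.of_re (RE.comp hV.to_re (f := fun x : (ℕ × ℕ) × ℕ => (x.1.1, x.2))
          (by fun_prop))
      · exact ok_re.comp (f := fun x : (ℕ × ℕ) × ℕ => (wd x.2).1.2) (by fun_prop)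
      · refine REIn.all_lt (S := fun (p : (ℕ × ℕ) × ℕ) w' => ¬ V p.1.1 w' ∨ ¬ Ok A (wd w').1.2)
          (f := fun p => p.2) (REIn.or ?_ ?_) (by fun_prop)
        · exact REIn.of_re (RE.comp hV.not.to_re
            (f := fun x : ((ℕ × ℕ) × ℕ) × ℕ => (x.1.1.1, x.2)) (by fun_prop))
        · exact nok_re.comp (f := fun x : ((ℕ × ℕ) × ℕ) × ℕ => (wd x.2).1.2) (by fun_prop)
      · exact REIn.of_re (RE.eq (by fun_prop) (by fun_prop))
    refine h1.of_eq fun p => ?_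
    constructor
    · rintro ⟨w, ⟨h2, h3⟩, h4⟩
      have : Nat.find (hex p.1) = w := by
        rw [Nat.find_eq_iff]
        exact ⟨h2, fun w' hw' => not_and_or.2 (h3 w' hw')⟩
      simp only [this]
      exact h4
    · intro h2
      exact ⟨_, ⟨Nat.find_spec (hex p.1), fun w' hw' =>
        not_and_or.1 (Nat.find_min (hex p.1) hw')⟩, h2⟩
  · obtain ⟨h1, h2⟩ := Nat.find_spec (hex x)
    exact (hS (x, _)).2 ⟨_, (he ((x, _), _)).2 ⟨_, h1⟩, h2⟩

theorem FunIn.of_computable {f : ℕ → ℕ} (hf : Computable f) : FunIn A f :=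
  REIn.of_re (RE.eq (by fun_prop) (by fun_prop))

theorem FunIn.comp {f g : ℕ → ℕ} (hf : FunIn A f) (hg : FunIn A g) :
    FunIn A fun n => f (g n) := by
  have h1 : REIn A fun x : (ℕ × ℕ) × ℕ => f x.2 = x.1.2 :=
    REIn.comp (S := fun p : ℕ × ℕ => f p.1 = p.2) hf
      (f := fun x : (ℕ × ℕ) × ℕ => (x.2, x.1.2)) (by fun_prop)
  exact FunIn.re hg (S := fun (p : ℕ × ℕ) v => f v = p.2) h1 (f := fun p => p.1) (by fun_prop)

/-- bounds for finitely many values -/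
theorem FunIn.bound {f : ℕ → ℕ} (hf : FunIn A f) {b : ℕ → ℕ} (hb : Computable b) :
    ∃ g : ℕ → ℕ, FunIn A g ∧ ∀ n, ∀ i < b n, f i ≤ g n := by
  refine unif (S := fun n s => ∀ i < b n, f i ≤ s) ?_ ?_
  · refine REIn.all_lt (S := fun (p : ℕ × ℕ) i => f i ≤ p.2) (f := fun p => b p.1) ?_
      (by fun_prop)
    exact FunIn.re hf (S := fun (x : (ℕ × ℕ) × ℕ) v => v ≤ x.1.2)
      (REIn.of_re (RE.le (by fun_prop) (by fun_prop))) (f := fun x => x.2) (by fun_prop)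
  · intro n
    refine ⟨∑ i ∈ Finset.range (b n), f i, fun i hi => ?_⟩
    exact Finset.single_le_sum (f := f) (fun i _ => Nat.zero_le _) (Finset.mem_range.2 hi)

end general

/-! ### approximations below a c.e. set -/

/-- the decoding of witnesses: an answer, an information, a number of steps -/
def wd (w : ℕ) : (Bool × Info) × ℕ :=
  (Encodable.decode (α := (Bool × Info) × ℕ) w).getD ((false, ([], [])), 0)

theorem wd_comp : Computable wd :=
  Primrec.option_getD.to_comp.comp (by fun_prop) (by fun_prop)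

theorem wd_encode (x : (Bool × Info) × ℕ) : wd (encode x) = x := by
  simp only [wd, encodek, Option.getD_some]

def V (e x w : ℕ) : Prop := RE.wst (ℕ × (Bool × Info)) e (wd w).2 (x, (wd w).1) = true

theorem V_cp {α : Type} [Primcodable α] {e x w : α → ℕ} (he : Computable e) (hx : Computable x)
    (hw : Computable w) : ComputablePred fun a => V (e a) (x a) (w a) := by
  have := wd_comp
  exact wst_cp he (by fun_prop) (by fun_prop)

/-- the finite information is correct at the stage `s` -/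
def OkS (a s : ℕ) (c : Info) : Prop :=
  (∀ y ∈ c.1, RE.wst ℕ a s y = true) ∧ ∀ y ∈ c.2, RE.wst ℕ a s y ≠ true

theorem okS_re (a : ℕ) : REPred fun p : ℕ × Info => OkS a p.1 p.2 :=
  RE.and
    (RE.all_mem (p := fun (p : ℕ × Info) y => RE.wst ℕ a p.1 y = true) (l := fun p => p.2.1)
      (wst_cp (by fun_prop) (by fun_prop) (by fun_prop)).to_re (by fun_prop))
    (RE.all_mem (p := fun (p : ℕ × Info) y => RE.wst ℕ a p.1 y ≠ true) (l := fun p => p.2.2)
      (wst_cp (by fun_prop) (by fun_prop) (by fun_prop)).not.to_re (by fun_prop))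

theorem nokS_re (a : ℕ) : REPred fun p : ℕ × Info => ¬ OkS a p.1 p.2 := by
  have h1 : REPred fun p : ℕ × Info => (∃ y ∈ p.2.1, RE.wst ℕ a p.1 y ≠ true) ∨
      ∃ y ∈ p.2.2, RE.wst ℕ a p.1 y = true :=
    RE.or
      (RE.ex_mem (p := fun (p : ℕ × Info) y => RE.wst ℕ a p.1 y ≠ true) (l := fun p => p.2.1)
        (wst_cp (by fun_prop) (by fun_prop) (by fun_prop)).not.to_re (by fun_prop))
      (RE.ex_mem (p := fun (p : ℕ × Info) y => RE.wst ℕ a p.1 y = true) (l := fun p => p.2.2)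
        (wst_cp (by fun_prop) (by fun_prop) (by fun_prop)).to_re (by fun_prop))
  refine h1.of_eq fun p => ?_
  unfold OkS
  rw [not_and_or]
  push Not
  exact Iff.rfl

/-- the guess at the stage `s` about `x`, for the `e`-th pair of reductions -/
def G (a e s x : ℕ) : Prop :=
  ∃ w < s, (V e x w ∧ OkS a s (wd w).1.2) ∧ (wd w).1.1 = true ∧
    ∀ w' < w, ¬ V e x w' ∨ ¬ OkS a s (wd w').1.2

theorem G_re (a : ℕ) : REPred fun p : ℕ × ℕ × ℕ => G a p.1 p.2.1 p.2.2 := by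
  have hw := wd_comp
  refine RE.exN (p := fun (p : ℕ × ℕ × ℕ) w => w < p.2.1 ∧ (V p.1 p.2.2 w ∧
    OkS a p.2.1 (wd w).1.2) ∧ (wd w).1.1 = true ∧
    ∀ w' < w, ¬ V p.1 p.2.2 w' ∨ ¬ OkS a p.2.1 (wd w').1.2) ?_
  refine RE.and (RE.lt (by fun_prop) (by fun_prop)) (RE.and (RE.and ?_ ?_)
    (RE.and (RE.eq (by fun_prop) (by fun_prop)) ?_))
  · exact (V_cp (by fun_prop) (by fun_prop) (by fun_prop)).to_re
  · exact RE.comp (okS_re a) (f := fun x : (ℕ × ℕ × ℕ) × ℕ => (x.1.2.1, (wd x.2).1.2))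
      (by fun_prop)
  · refine RE.all_lt (p := fun (x : (ℕ × ℕ × ℕ) × ℕ) w' => ¬ V x.1.1 x.1.2.2 w' ∨
      ¬ OkS a x.1.2.1 (wd w').1.2) (f := fun x => x.2) (RE.or ?_ ?_) (by fun_prop)
    · exact (V_cp (by fun_prop) (by fun_prop) (by fun_prop)).not.to_re
    · exact RE.comp (nokS_re a)
        (f := fun x : ((ℕ × ℕ × ℕ) × ℕ) × ℕ => (x.1.1.2.1, (wd x.2).1.2)) (by fun_prop)

theorem nG_re (a : ℕ) : REPred fun p : ℕ × ℕ × ℕ => ¬ G a p.1 p.2.1 p.2.2 := by
  have hw := wd_comp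
  have h1 : REPred fun p : ℕ × ℕ × ℕ => ∀ w < p.2.1, (¬ V p.1 p.2.2 w ∨
      ¬ OkS a p.2.1 (wd w).1.2) ∨ (wd w).1.1 ≠ true ∨
      ∃ w', w' < w ∧ V p.1 p.2.2 w' ∧ OkS a p.2.1 (wd w').1.2 := by
    refine RE.all_lt (p := fun (p : ℕ × ℕ × ℕ) w => (¬ V p.1 p.2.2 w ∨
      ¬ OkS a p.2.1 (wd w).1.2) ∨ (wd w).1.1 ≠ true ∨
      ∃ w', w' < w ∧ V p.1 p.2.2 w' ∧ OkS a p.2.1 (wd w').1.2) (f := fun p => p.2.1)
      (RE.or (RE.or ?_ ?_) (RE.or (RE.ne (by fun_prop) (by fun_prop)) ?_)) (by fun_prop)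
    · exact (V_cp (by fun_prop) (by fun_prop) (by fun_prop)).not.to_re
    · exact RE.comp (nokS_re a) (f := fun x : (ℕ × ℕ × ℕ) × ℕ => (x.1.2.1, (wd x.2).1.2))
        (by fun_prop)
    · refine RE.exN (p := fun (x : (ℕ × ℕ × ℕ) × ℕ) w' => w' < x.2 ∧ V x.1.1 x.1.2.2 w' ∧
        OkS a x.1.2.1 (wd w').1.2) (RE.and (RE.lt (by fun_prop) (by fun_prop)) (RE.and ?_ ?_))
      · exact (V_cp (by fun_prop) (by fun_prop) (by fun_prop)).to_re
      · exact RE.comp (okS_re a)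
          (f := fun x : ((ℕ × ℕ × ℕ) × ℕ) × ℕ => (x.1.1.2.1, (wd x.2).1.2)) (by fun_prop)
  refine h1.of_eq fun p => ?_
  unfold G
  constructor
  · rintro h ⟨w, hw, ⟨h1, h2⟩, h3, h4⟩
    rcases h w hw with (h5 | h5) | h5 | ⟨w', h5, h6, h7⟩
    · exact h5 h1
    · exact h5 h2
    · exact h5 h3
    · rcases h4 w' h5 with h8 | h8
      · exact h8 h6
      · exact h8 h7
  · intro h w hw
    by_contra hcon
    push Not at hcon
    obtain ⟨⟨h1, h2⟩, h3, h4⟩ := hcon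
    refine h ⟨w, hw, ⟨h1, h2⟩, h3, fun w' hw' => ?_⟩
    by_contra hcon
    push Not at hcon
    exact h4 w' hw' hcon.1 hcon.2

/-- the modulus -/
theorem exists_modulus {a : ℕ} {A D : Set ℕ} (hA : ∀ x, x ∈ A ↔ ∃ s, RE.wst ℕ a s x = true)
    (hD : Red D A) :
    ∃ (e : ℕ) (h : ℕ → ℕ), FunIn A h ∧ ∀ x s, h x ≤ s → (G a e s x ↔ x ∈ D) := by
  obtain ⟨⟨R1, hR1, h1⟩, ⟨R0, hR0, h0⟩⟩ := Red_iff.1 hD
  have hR : REPred fun x : ℕ × (Bool × Info) => (x.2.1 = true ∧ R1 x.1 x.2.2) ∨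
      (x.2.1 = false ∧ R0 x.1 x.2.2) :=
    RE.or
      (RE.and (RE.eq (by fun_prop) (by fun_prop))
        (RE.comp hR1 (f := fun x : ℕ × (Bool × Info) => (x.1, x.2.2)) (by fun_prop)))
      (RE.and (RE.eq (by fun_prop) (by fun_prop))
        (RE.comp hR0 (f := fun x : ℕ × (Bool × Info) => (x.1, x.2.2)) (by fun_prop)))
  obtain ⟨e, he⟩ := RE.wst_univ hR
  -- correct witnesses give the right answer
  have hans : ∀ x w, V e x w → Ok A (wd w).1.2 → ((wd w).1.1 = true ↔ x ∈ D) := by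
    intro x w hV hok
    rcases (he (x, (wd w).1)).2 ⟨_, hV⟩ with ⟨h2, h3⟩ | ⟨h2, h3⟩
    · simp only at h2 h3
      rw [h2]
      exact iff_of_true rfl ((h1 x).2 ⟨_, h3, hok⟩)
    · simp only at h2 h3
      rw [h2]
      exact iff_of_false (by simp) ((h0 x).2 ⟨_, h3, hok⟩)
  have hexw : ∀ x, ∃ w, V e x w ∧ Ok A (wd w).1.2 := by
    intro x
    by_cases hx : x ∈ D
    · obtain ⟨c, hc, hok⟩ := (h1 x).1 hx
      obtain ⟨t, ht⟩ := (he (x, (true, c))).1 (Or.inl ⟨rfl, hc⟩)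
      refine ⟨encode ((true, c), t), ?_, by rw [wd_encode]; exact hok⟩
      unfold V; rw [wd_encode]; exact ht
    · obtain ⟨c, hc, hok⟩ := (h0 x).1 hx
      obtain ⟨t, ht⟩ := (he (x, (false, c))).1 (Or.inr ⟨rfl, hc⟩)
      refine ⟨encode ((false, c), t), ?_, by rw [wd_encode]; exact hok⟩
      unfold V; rw [wd_encode]; exact ht
  -- the witness `w` is refuted at the stage `s`
  let Z : ℕ → ℕ → ℕ → Prop := fun x w s => ¬ V e x w ∨
    (∃ y ∈ (wd w).1.2.2, RE.wst ℕ a s y = true) ∨ ∃ y : ℕ, y ∈ (wd w).1.2.1 ∧ y ∉ A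
  have hZmono : ∀ x w s t, s ≤ t → Z x w s → Z x w t := by
    rintro x w s t hst (h | ⟨y, hy, h⟩ | h)
    · exact Or.inl h
    · exact Or.inr (Or.inl ⟨y, hy, RE.wst_mono hst h⟩)
    · exact Or.inr (Or.inr h)
  have hZ : ∀ x w s, Z x w s → ¬ V e x w ∨ ¬ OkS a s (wd w).1.2 := by
    rintro x w s (h | ⟨y, hy, h⟩ | ⟨y, hy, h⟩)
    · exact Or.inl h
    · exact Or.inr fun h2 => h2.2 y hy h
    · exact Or.inr fun h2 => h ((hA y).2 ⟨s, h2.1 y hy⟩)
  have hZex : ∀ x w, ¬ (V e x w ∧ Ok A (wd w).1.2) → ∃ s, Z x w s := by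
    intro x w h
    by_cases hV : V e x w
    · have hn : ¬ Ok A (wd w).1.2 := fun h2 => h ⟨hV, h2⟩
      unfold Ok at hn
      rw [not_and_or] at hn
      push Not at hn
      rcases hn with ⟨y, hy, hyA⟩ | ⟨y, hy, hyA⟩
      · exact ⟨0, Or.inr (Or.inr ⟨y, hy, hyA⟩)⟩
      · obtain ⟨s, hs⟩ := (hA y).1 hyA
        exact ⟨s, Or.inr (Or.inl ⟨y, hy, hs⟩)⟩
    · exact ⟨0, Or.inl hV⟩
  let St : ℕ → ℕ → Prop := fun x s => ∃ w, w < s ∧ (V e x w ∧ Ok A (wd w).1.2) ∧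
    (∀ y ∈ (wd w).1.2.1, RE.wst ℕ a s y = true) ∧ ∀ w' < w, Z x w' s
  have hSt : REIn A fun p : ℕ × ℕ => St p.1 p.2 := by
    have hw := wd_comp
    refine REIn.ex (S := fun (p : ℕ × ℕ) w => w < p.2 ∧ (V e p.1 w ∧ Ok A (wd w).1.2) ∧
      (∀ y ∈ (wd w).1.2.1, RE.wst ℕ a p.2 y = true) ∧ ∀ w' < w, Z p.1 w' p.2) ?_
    refine REIn.and (REIn.of_re (RE.lt (by fun_prop) (by fun_prop))) (REIn.and (REIn.and ?_ ?_)
      (REIn.and ?_ ?_))
    · exact REIn.of_re (V_cp (by fun_prop) (by fun_prop) (by fun_prop)).to_re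
    · exact ok_re.comp (f := fun x : (ℕ × ℕ) × ℕ => (wd x.2).1.2) (by fun_prop)
    · exact REIn.of_re (RE.all_mem (p := fun (x : (ℕ × ℕ) × ℕ) y => RE.wst ℕ a x.1.2 y = true)
        (l := fun x => (wd x.2).1.2.1) (wst_cp (by fun_prop) (by fun_prop) (by fun_prop)).to_re
        (by fun_prop))
    · refine REIn.all_lt (S := fun (x : (ℕ × ℕ) × ℕ) w' => Z x.1.1 w' x.1.2) (f := fun x => x.2)
        (REIn.or ?_ (REIn.or ?_ ?_)) (by fun_prop)
      · exact REIn.of_re (V_cp (by fun_prop) (by fun_prop) (by fun_prop)).not.to_re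
      · exact REIn.of_re (RE.ex_mem (p := fun (x : ((ℕ × ℕ) × ℕ) × ℕ) y =>
          RE.wst ℕ a x.1.1.2 y = true) (l := fun x => (wd x.2).1.2.2)
          (wst_cp (by fun_prop) (by fun_prop) (by fun_prop)).to_re (by fun_prop))
      · exact REIn.ex (S := fun (x : ((ℕ × ℕ) × ℕ) × ℕ) (y : ℕ) => y ∈ (wd x.2).1.2.1 ∧ y ∉ A)
          (REIn.and (REIn.of_re (RE.mem_list (by fun_prop) (by fun_prop)))
            (REIn.not_mem (f := fun x : (((ℕ × ℕ) × ℕ) × ℕ) × ℕ => x.2) (by fun_prop)))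
  have hStex : ∀ x, ∃ s, St x s := by
    classical
    intro x
    obtain ⟨hw1, hw2⟩ := Nat.find_spec (hexw x)
    have hmin : ∀ w' < Nat.find (hexw x), ∃ s, Z x w' s := fun w' hw' =>
      hZex x w' (Nat.find_min (hexw x) hw')
    set w := Nat.find (hexw x) with hwdef
    clear_value w
    -- finitely many conditions
    have hfin : ∀ n ≤ w, ∃ s, ∀ w' < n, Z x w' s := by
      intro n
      induction n with
      | zero => exact fun _ => ⟨0, fun w' hw' => by omega⟩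
      | succ n ih =>
        intro hn
        obtain ⟨s, hs⟩ := ih (by omega)
        obtain ⟨s', hs'⟩ := hmin n (by omega)
        refine ⟨max s s', fun w' hw' => ?_⟩
        rcases Nat.lt_succ_iff_lt_or_eq.1 hw' with h | rfl
        · exact hZmono _ _ _ _ (le_max_left _ _) (hs w' h)
        · exact hZmono _ _ _ _ (le_max_right _ _) hs'
    have hpos : ∀ l : List ℕ, (∀ y ∈ l, y ∈ A) → ∃ s, ∀ y ∈ l, RE.wst ℕ a s y = true := by
      intro l
      induction l with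
      | nil => exact fun _ => ⟨0, by simp⟩
      | cons y l ih =>
        intro hl
        obtain ⟨s, hs⟩ := ih fun z hz => hl z (by simp [hz])
        obtain ⟨s', hs'⟩ := (hA y).1 (hl y (by simp))
        refine ⟨max s s', fun z hz => ?_⟩
        rcases List.mem_cons.1 hz with rfl | hz
        · exact RE.wst_mono (le_max_right _ _) hs'
        · exact RE.wst_mono (le_max_left _ _) (hs z hz)
    obtain ⟨s1, hs1⟩ := hfin w le_rfl
    obtain ⟨s2, hs2⟩ := hpos _ hw2.1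
    refine ⟨s1 + s2 + w + 1, w, by omega, ⟨hw1, hw2⟩, fun y hy =>
      RE.wst_mono (by omega) (hs2 y hy), fun w' hw' => hZmono _ _ _ _ (by omega) (hs1 w' hw')⟩
  obtain ⟨h, hh, hhS⟩ := unif hSt hStex
  refine ⟨e, h, hh, fun x s hxs => ?_⟩
  obtain ⟨w, hws, ⟨hV, hok⟩, hpos, hmin⟩ := hhS x
  have hok' : OkS a s (wd w).1.2 :=
    ⟨fun y hy => RE.wst_mono hxs (hpos y hy), fun y hy hy' => hok.2 y hy ((hA y).2 ⟨_, hy'⟩)⟩
  have hmin' : ∀ w' < w, ¬ V e x w' ∨ ¬ OkS a s (wd w').1.2 := fun w' hw' =>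
    hZ x w' s (hZmono _ _ _ _ hxs (hmin w' hw'))
  rw [← hans x w hV hok]
  constructor
  · rintro ⟨w2, hw2, ⟨h3, h4⟩, h5, h6⟩
    rcases lt_trichotomy w w2 with hlt | rfl | hlt
    · rcases h6 w hlt with h7 | h7
      · exact absurd hV h7
      · exact absurd hok' h7
    · exact h5
    · rcases hmin' w2 hlt with h7 | h7
      · exact absurd h3 h7
      · exact absurd h4 h7
  · intro h3
    exact ⟨w, by omega, ⟨hV, hok'⟩, h3, hmin'⟩

end Pool.Agent.H454R3.Att
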